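import Mathlib

set_option autoImplicit false

/-!
Generic computability tools: computable minimisation, computable dependent choice, and
right-recursively enumerable reals of the form `⨅ log K_n / M_n`.
-/

namespace Pool.Agent.H83.Ent

/-- Computable minimisation. -/
theorem computable_find {α : Type*} [Primcodable α] {P : α → ℕ → Bool} (hP : Computable₂ P)
    {f : α → ℕ} (hf : ∀ a, P a (f a) = true ∧ ∀ m < f a, P a m = false) : Computable f := by
  have h1 : Partrec fun a => Nat.rfind ((P a : ℕ → Bool) : ℕ →. Bool) :=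
    Partrec.rfind hP.partrec₂
  refine h1.of_eq_tot (fun a => Nat.mem_rfind.2 ⟨?_, fun {m} hm => ?_⟩)
  · exact Part.mem_some_iff.2 (hf a).1.symm
  · exact Part.mem_some_iff.2 ((hf a).2 m hm).symm

section DC

variable {α : Type*} [Primcodable α]

/-- the test at `c` -/
def dcG (P : ℕ → α → α → Bool) (q : ℕ × α) (c : ℕ) : Option α :=
  (Encodable.decode (α := α) c).bind (fun b => bif P q.1 q.2 b then some b else none)

lemma dcG_comp {P : ℕ → α → α → Bool}
    (hP : Computable fun q : (ℕ × α) × α => P q.1.1 q.1.2 q.2) : Computable₂ (dcG P) := by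
  have hdec : Computable (fun z : (ℕ × α) × ℕ => (Encodable.decode (α := α) z.2)) :=
    Computable.decode.comp Computable.snd
  have h1 : Computable (fun w : ((ℕ × α) × ℕ) × α => (w.1.1, w.2)) :=
    Computable.pair (Computable.fst.comp Computable.fst) Computable.snd
  have hb1 : Computable (fun w : ((ℕ × α) × ℕ) × α => P w.1.1.1 w.1.1.2 w.2) :=
    Computable.comp (f := fun q : (ℕ × α) × α => P q.1.1 q.1.2 q.2)
      (g := fun w : ((ℕ × α) × ℕ) × α => (w.1.1, w.2)) hP h1
  have hb2 : Computable (fun w : ((ℕ × α) × ℕ) × α => (some w.2 : Option α)) :=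
    Computable.option_some.comp Computable.snd
  have hb3 : Computable (fun w : ((ℕ × α) × ℕ) × α => (none : Option α)) := Computable.const none
  have hb : Computable₂ (fun (z : (ℕ × α) × ℕ) (b : α) =>
      (bif P z.1.1 z.1.2 b then some b else none : Option α)) := Computable.cond hb1 hb2 hb3
  exact Computable.option_bind hdec hb

/-- the search -/
def dcS (P : ℕ → α → α → Bool) (q : ℕ × α) : Part α := Nat.rfindOpt (dcG P q)

lemma dcS_partrec {P : ℕ → α → α → Bool}
    (hP : Computable fun q : (ℕ × α) × α => P q.1.1 q.1.2 q.2) : Partrec (dcS P) :=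
  Partrec.rfindOpt (dcG_comp hP)

lemma dcS_spec {P : ℕ → α → α → Bool} {i : ℕ} {a : α} (h : ∃ b, P i a b = true) :
    ∃ b, b ∈ dcS P (i, a) ∧ P i a b = true := by
  obtain ⟨b, hb⟩ := h
  have hdom : (dcS P (i, a)).Dom := by
    refine Nat.rfindOpt_dom.2 ⟨Encodable.encode b, b, ?_⟩
    show b ∈ dcG P (i, a) (Encodable.encode b)
    simp [dcG, Encodable.encodek, hb]
  refine ⟨(dcS P (i, a)).get hdom, Part.get_mem hdom, ?_⟩
  obtain ⟨n, hn⟩ := Nat.rfindOpt_spec (Part.get_mem hdom)
  simp only [dcG] at hn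
  rw [Option.mem_def, Option.bind_eq_some_iff] at hn
  obtain ⟨c, _, hc⟩ := hn
  by_cases hPc : P i a c = true
  · rw [hPc, cond_true] at hc
    rw [← Option.some.inj hc]; exact hPc
  · rw [Bool.not_eq_true] at hPc
    rw [hPc, cond_false] at hc
    cases hc

/-- the sequence -/
def dcF (P : ℕ → α → α → Bool) (a0 : α) : ℕ → Part α
  | 0 => Part.some a0
  | n + 1 => (dcF P a0 n).bind fun a => dcS P (n, a)

lemma dcF_partrec {P : ℕ → α → α → Bool}
    (hP : Computable fun q : (ℕ × α) × α => P q.1.1 q.1.2 q.2) (a0 : α) :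
    Partrec (dcF P a0) := by
  have h1 : Partrec₂ (fun (_ : ℕ) (q : ℕ × α) => dcS P q) :=
    (dcS_partrec hP).comp Computable.snd
  have h2 : Partrec (fun _ : ℕ => (Part.some a0 : Part α)) := Computable.const a0
  have := Partrec.nat_rec (f := fun n : ℕ => n) (g := fun _ : ℕ => (Part.some a0 : Part α))
    (h := fun (_ : ℕ) (q : ℕ × α) => dcS P q) Computable.id h2 h1
  refine this.of_eq (fun n => ?_)
  induction n with
  | zero => rfl
  | succ n ih =>
    rw [dcF, ← ih]

/-- Computable dependent choice. -/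
theorem computable_dc (P : ℕ → α → α → Bool)
    (hP : Computable fun q : (ℕ × α) × α => P q.1.1 q.1.2 q.2) (good : ℕ → α → Prop) (a0 : α)
    (h0 : good 0 a0) (step : ∀ i a, good i a → ∃ b, P i a b = true)
    (pres : ∀ i a b, good i a → P i a b = true → good (i + 1) b) :
    ∃ s : ℕ → α, Computable s ∧ s 0 = a0 ∧ ∀ i, good i (s i) ∧ P i (s i) (s (i + 1)) = true := by
  have key : ∀ n, ∃ a, a ∈ dcF P a0 n ∧ good n a := by
    intro n
    induction n with
    | zero => exact ⟨a0, Part.mem_some _, h0⟩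
    | succ n ih =>
      obtain ⟨a, ha, hga⟩ := ih
      obtain ⟨b, hb, hPb⟩ := dcS_spec (step n a hga)
      refine ⟨b, ?_, pres n a b hga hPb⟩
      rw [dcF]
      exact Part.mem_bind ha hb
  choose s hs hgood using key
  refine ⟨s, (dcF_partrec hP a0).of_eq_tot hs, ?_, fun i => ⟨hgood i, ?_⟩⟩
  · exact Part.mem_some_iff.1 (hs 0)
  · obtain ⟨b, hb, hPb⟩ := dcS_spec (step i (s i) (hgood i))
    have h1 : b ∈ dcF P a0 (i + 1) := by
      rw [dcF]
      exact Part.mem_bind (hs i) hb
    rw [Part.mem_unique (hs (i + 1)) h1]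
    exact hPb

end DC

/-- Right-recursively enumerable, exactly as in the frozen statement. -/
def RRE (x : ℝ) : Prop :=
  0 ≤ x ∧ ∃ a b : ℕ → ℕ, Computable a ∧ Computable b ∧ x = ⨅ n : ℕ, (a n : ℝ) / ((b n : ℝ) + 1)

lemma clog_exists (K D : ℕ) : ∃ c, K * (D + 1) ^ c ≤ (D + 2) ^ c := by
  have hlim := tendsto_pow_atTop_atTop_of_one_lt
    (show (1 : ℝ) < ((D : ℝ) + 2) / ((D : ℝ) + 1) by
      rw [one_lt_div (by positivity)]; linarith)
  obtain ⟨c, hc⟩ := (hlim.eventually_ge_atTop (K : ℝ)).exists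
  refine ⟨c, ?_⟩
  rw [div_pow, le_div_iff₀ (by positivity)] at hc
  exact_mod_cast hc

/-- least `c` with `K (D+1)^c ≤ (D+2)^c` -/
noncomputable def clog (K D : ℕ) : ℕ := Nat.find (clog_exists K D)

lemma clog_spec (K D : ℕ) : K * (D + 1) ^ clog K D ≤ (D + 2) ^ clog K D :=
  Nat.find_spec (clog_exists K D)

lemma clog_lower (K D : ℕ) : Real.log K ≤ (clog K D : ℝ) / ((D : ℝ) + 1) := by
  rcases Nat.eq_zero_or_pos K with rfl | hK
  · simp only [Nat.cast_zero, Real.log_zero]; positivity
  have hKr : (0 : ℝ) < K := by exact_mod_cast hK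
  have h1 : (K : ℝ) * ((D : ℝ) + 1) ^ clog K D ≤ ((D : ℝ) + 2) ^ clog K D := by
    exact_mod_cast clog_spec K D
  have h2 : (K : ℝ) ≤ (((D : ℝ) + 2) / ((D : ℝ) + 1)) ^ clog K D := by
    rw [div_pow, le_div_iff₀ (by positivity)]; exact h1
  have h3 : Real.log K ≤ clog K D * Real.log (((D : ℝ) + 2) / ((D : ℝ) + 1)) := by
    rw [← Real.log_pow]; exact Real.log_le_log hKr h2
  have h4 : Real.log (((D : ℝ) + 2) / ((D : ℝ) + 1)) ≤ 1 / ((D : ℝ) + 1) := by
    have := Real.log_le_sub_one_of_pos (show (0 : ℝ) < ((D : ℝ) + 2) / ((D : ℝ) + 1) by positivity)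
    refine this.trans (le_of_eq ?_)
    field_simp; ring
  calc Real.log K ≤ clog K D * Real.log (((D : ℝ) + 2) / ((D : ℝ) + 1)) := h3
    _ ≤ clog K D * (1 / ((D : ℝ) + 1)) := mul_le_mul_of_nonneg_left h4 (Nat.cast_nonneg _)
    _ = _ := by ring

lemma clog_upper (K D : ℕ) :
    (clog K D : ℝ) / ((D : ℝ) + 1) ≤ Real.log K + (Real.log K + 1) / ((D : ℝ) + 1) := by
  have hlog : 0 ≤ Real.log K := Real.log_natCast_nonneg K
  rcases Nat.eq_zero_or_pos (clog K D) with h0 | hpos
  · rw [h0]; simp only [Nat.cast_zero, zero_div]; positivity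
  · obtain ⟨c, hc⟩ := Nat.exists_eq_succ_of_ne_zero hpos.ne'
    have h1 : ¬ (K * (D + 1) ^ c ≤ (D + 2) ^ c) := by
      apply Nat.find_min (clog_exists K D)
      show c < clog K D
      omega
    rw [not_le] at h1
    have hK : 0 < K := by
      rcases Nat.eq_zero_or_pos K with rfl | h
      · simp at h1
      · exact h
    have hKr : (0 : ℝ) < K := by exact_mod_cast hK
    have h2 : ((D : ℝ) + 2) ^ c ≤ (K : ℝ) * ((D : ℝ) + 1) ^ c := by exact_mod_cast h1.le
    have h3 : (((D : ℝ) + 2) / ((D : ℝ) + 1)) ^ c ≤ K := by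
      rw [div_pow, div_le_iff₀ (by positivity)]; exact h2
    have h4 : c * Real.log (((D : ℝ) + 2) / ((D : ℝ) + 1)) ≤ Real.log K := by
      rw [← Real.log_pow]; exact Real.log_le_log (by positivity) h3
    have h5 : 1 / ((D : ℝ) + 2) ≤ Real.log (((D : ℝ) + 2) / ((D : ℝ) + 1)) := by
      have := Real.one_sub_inv_le_log_of_pos
        (show (0 : ℝ) < ((D : ℝ) + 2) / ((D : ℝ) + 1) by positivity)
      refine le_trans (le_of_eq ?_) this
      field_simp; ring
    have h6 : (c : ℝ) * (1 / ((D : ℝ) + 2)) ≤ Real.log K :=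
      (mul_le_mul_of_nonneg_left h5 (Nat.cast_nonneg _)).trans h4
    have h7 : (c : ℝ) ≤ Real.log K * ((D : ℝ) + 2) := by
      rw [mul_one_div, div_le_iff₀ (by positivity)] at h6; exact h6
    rw [hc]
    push_cast
    rw [div_le_iff₀ (by positivity)]
    have h8 : (Real.log K + (Real.log K + 1) / ((D : ℝ) + 1)) * ((D : ℝ) + 1) =
        Real.log K * ((D : ℝ) + 1) + (Real.log K + 1) := by field_simp
    rw [h8]
    linarith

theorem computable_clog : Computable₂ clog := by
  have hpow : Primrec₂ (fun (a b : ℕ) => a ^ b) := Primrec₂.unpaired'.1 Nat.Primrec.pow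
  have hP : Computable₂ (fun (q : ℕ × ℕ) (c : ℕ) => decide (q.1 * (q.2 + 1) ^ c ≤ (q.2 + 2) ^ c)) := by
    apply Primrec.to_comp
    have h1 : Primrec (fun z : (ℕ × ℕ) × ℕ => z.1.1 * (z.1.2 + 1) ^ z.2) :=
      Primrec.nat_mul.comp (Primrec.fst.comp Primrec.fst)
        (hpow.comp (Primrec.succ.comp (Primrec.snd.comp Primrec.fst)) Primrec.snd)
    have h2 : Primrec (fun z : (ℕ × ℕ) × ℕ => (z.1.2 + 2) ^ z.2) :=
      hpow.comp (Primrec.succ.comp (Primrec.succ.comp (Primrec.snd.comp Primrec.fst))) Primrec.snd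
    exact (PrimrecRel.comp Primrec.nat_le h1 h2).decide
  have : Computable (fun q : ℕ × ℕ => clog q.1 q.2) := by
    apply computable_find hP
    intro q
    refine ⟨decide_eq_true (clog_spec q.1 q.2), fun m hm => decide_eq_false ?_⟩
    exact Nat.find_min (clog_exists q.1 q.2) hm
  exact this

/-- `⨅ log K_n / M_n` is right-recursively enumerable. -/
theorem rre_of_log {x : ℝ} (K M : ℕ → ℕ) (hK : Computable K) (hM : Computable M)
    (hMpos : ∀ n, 0 < M n) (hx : x = ⨅ n, Real.log (K n) / M n) : RRE x := by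
  have hterm : ∀ n, 0 ≤ Real.log (K n) / M n := fun n =>
    div_nonneg (Real.log_natCast_nonneg _) (Nat.cast_nonneg _)
  refine ⟨by rw [hx]; exact Real.iInf_nonneg hterm, fun m => clog (K m.unpair.1) m.unpair.2,
    fun m => (m.unpair.2 + 1) * M m.unpair.1 - 1, ?_, ?_, ?_⟩
  · exact computable_clog.comp (hK.comp (Computable.fst.comp Computable.unpair))
      (Computable.snd.comp Computable.unpair)
  · have h1 : Computable (fun m : ℕ => (m.unpair.2 + 1) * M m.unpair.1) :=
      (Primrec.nat_mul.to_comp).comp (Computable.succ.comp (Computable.snd.comp Computable.unpair))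
        (hM.comp (Computable.fst.comp Computable.unpair))
    exact (Primrec.nat_sub.to_comp).comp h1 (Computable.const 1)
  · have hb : ∀ m : ℕ, (((m.unpair.2 + 1) * M m.unpair.1 - 1 : ℕ) : ℝ) + 1 =
        ((m.unpair.2 : ℝ) + 1) * M m.unpair.1 := by
      intro m
      have : 1 ≤ (m.unpair.2 + 1) * M m.unpair.1 := Nat.mul_pos (Nat.succ_pos _) (hMpos _)
      rw [Nat.cast_sub this]
      push_cast; ring
    have hM' : ∀ n, (0 : ℝ) < M n := fun n => by exact_mod_cast hMpos n
    have hbdd : BddBelow (Set.range fun n => Real.log (K n) / M n) :=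
      ⟨0, by rintro _ ⟨n, rfl⟩; exact hterm n⟩
    have hbdd2 : BddBelow (Set.range fun m : ℕ => (clog (K m.unpair.1) m.unpair.2 : ℝ) /
        ((((m.unpair.2 + 1) * M m.unpair.1 - 1 : ℕ) : ℝ) + 1)) :=
      ⟨0, by rintro _ ⟨n, rfl⟩; positivity⟩
    rw [hx]
    apply le_antisymm
    · apply le_ciInf
      intro m
      refine (ciInf_le hbdd m.unpair.1).trans ?_
      rw [hb, ← div_div]
      exact div_le_div_of_nonneg_right (clog_lower _ _) (hM' _).le
    · apply le_ciInf
      intro n
      apply le_of_forall_pos_le_add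
      intro ε hε
      obtain ⟨D, hD⟩ := exists_nat_ge ((Real.log (K n) + 1) / (ε * M n))
      refine (ciInf_le hbdd2 (Nat.pair n D)).trans ?_
      rw [hb]
      simp only [Nat.unpair_pair]
      rw [← div_div]
      have h1 := clog_upper (K n) D
      have h2 : (Real.log (K n) + 1) / ((D : ℝ) + 1) ≤ ε * M n := by
        have hlog : 0 ≤ Real.log (K n) := Real.log_natCast_nonneg _
        rw [div_le_iff₀ (by positivity)]
        rw [div_le_iff₀ (mul_pos hε (hM' n))] at hD
        nlinarith [mul_pos hε (hM' n)]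
      calc (clog (K n) D : ℝ) / ((D : ℝ) + 1) / M n
          ≤ (Real.log (K n) + ε * M n) / M n :=
            div_le_div_of_nonneg_right (h1.trans (by linarith)) (hM' n).le
        _ = Real.log (K n) / M n + ε := by
            have := (hM' n).ne'
            field_simp

end Pool.Agent.H83.Ent
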