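import Mathlib

set_option autoImplicit false

/-!
Nonnegative integer matrices with a positive right eigenvector: roots, powers and the
passage to `0/1` matrices.
-/

namespace Pool.Agent.H83.Ent

open Finset

/-- `μ` is an eigenvalue of a nonnegative integer matrix with a positive right eigenvector. -/
def EigN (μ : ℝ) : Prop :=
  ∃ (S : Type) (_ : Fintype S) (_ : DecidableEq S) (_ : Nonempty S) (B : Matrix S S ℕ) (ρ : S → ℝ),
    (∀ s, 0 < ρ s) ∧ ∀ s, ∑ s' : S, (B s s' : ℝ) * ρ s' = μ * ρ s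

lemma EigN.pow {μ : ℝ} (h : EigN μ) (u : ℕ) : EigN (μ ^ u) := by
  obtain ⟨S, i1, i2, i3, B, ρ, hρ, hB⟩ := h
  refine ⟨S, i1, i2, i3, B ^ u, ρ, hρ, ?_⟩
  induction u with
  | zero =>
    intro s
    simp only [pow_zero, one_mul]
    rw [Finset.sum_eq_single s]
    · simp
    · intro b _ hb
      rw [Matrix.one_apply_ne (Ne.symm hb)]
      simp
    · intro h; exact absurd (Finset.mem_univ _) h
  | succ u ih =>
    intro s
    have : ∀ s', ((B ^ (u + 1)) s s' : ℝ) = ∑ r : S, (B s r : ℝ) * ((B ^ u) r s' : ℝ) := by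
      intro s'
      rw [pow_succ', Matrix.mul_apply]
      push_cast
      rfl
    simp_rw [this, Finset.sum_mul]
    rw [Finset.sum_comm]
    have h2 : ∀ r : S, ∑ s' : S, (B s r : ℝ) * ((B ^ u) r s' : ℝ) * ρ s' = μ ^ u * ((B s r : ℝ) * ρ r) := by
      intro r
      have := ih r
      calc _ = (B s r : ℝ) * ∑ s' : S, ((B ^ u) r s' : ℝ) * ρ s' := by
            rw [Finset.mul_sum]; exact Finset.sum_congr rfl (fun _ _ => by ring)
        _ = _ := by rw [this]; ring
    rw [Finset.sum_congr rfl (fun r _ => h2 r), ← Finset.mul_sum, hB]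
    ring

/-- Subdividing every edge into `N` steps gives the `N`-th root. -/
lemma EigN.root {μ ν : ℝ} (h : EigN μ) (N : ℕ) (hN : 0 < N) (hν : 0 < ν) (hνN : ν ^ N = μ) :
    EigN ν := by
  obtain ⟨S, i1, i2, i3, B, ρ, hρ, hB⟩ := h
  haveI : NeZero N := ⟨hN.ne'⟩
  refine ⟨S × Fin N, inferInstance, inferInstance, inferInstance,
    fun p q => if (p.2 : ℕ) + 1 < N then (if q.1 = p.1 ∧ (q.2 : ℕ) = p.2 + 1 then 1 else 0)
      else (if (q.2 : ℕ) = 0 then B p.1 q.1 else 0), fun p => ν ^ (p.2 : ℕ) * ρ p.1, ?_, ?_⟩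
  · intro p
    exact mul_pos (pow_pos hν _) (hρ _)
  · rintro ⟨s, j⟩
    rw [Fintype.sum_prod_type]
    by_cases hj : (j : ℕ) + 1 < N
    · simp only [hj, if_true]
      rw [Finset.sum_eq_single s]
      · rw [Finset.sum_eq_single (⟨(j : ℕ) + 1, hj⟩ : Fin N)]
        · simp only [and_self, if_true, Nat.cast_one, one_mul]
          ring
        · intro b _ hb
          have : ¬ ((b : ℕ) = j + 1) := fun h => hb (Fin.ext h)
          simp [this]
        · intro h; exact absurd (Finset.mem_univ _) h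
      · intro b _ hb
        apply Finset.sum_eq_zero
        intro c _
        simp [hb]
      · intro h; exact absurd (Finset.mem_univ _) h
    · simp only [hj, if_false]
      have h1 : ∀ s' : S, ∑ q : Fin N, ((if (q : ℕ) = 0 then B s s' else 0 : ℕ) : ℝ) * (ν ^ (q : ℕ) * ρ s')
          = (B s s' : ℝ) * ρ s' := by
        intro s'
        rw [Finset.sum_eq_single (0 : Fin N)]
        · simp
        · intro b _ hb
          have : ¬ ((b : ℕ) = 0) := fun h => hb (Fin.ext (by simpa using h))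
          simp [this]
        · intro h; exact absurd (Finset.mem_univ _) h
      rw [Finset.sum_congr rfl (fun s' _ => h1 s'), hB]
      have h2 : (j : ℕ) + 1 = N := le_antisymm j.2 (not_lt.1 hj)
      calc μ * ρ s = ν ^ ((j : ℕ) + 1) * ρ s := by rw [h2, hνN]
        _ = _ := by ring

/-- `μ` is an eigenvalue of a `0/1` matrix with a positive right eigenvector. -/
def Eig (μ : ℝ) : Prop :=
  ∃ (m : ℕ) (R : Fin m → Fin m → Prop) (ρ : Fin m → ℝ), 0 < m ∧
    (∀ s, 0 < ρ s) ∧ ∀ s, (∑ᶠ s' ∈ {s' | R s s'}, ρ s') = μ * ρ s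

/-- Passing from multigraphs to graphs (edge graph). -/
lemma EigN.toEig {μ : ℝ} (h : EigN μ) (hμ : 0 < μ) : Eig μ := by
  classical
  obtain ⟨S, i1, i2, i3, B, ρ, hρ, hB⟩ := h
  let T := Σ q : S × S, Fin (B q.1 q.2)
  let e : T ≃ Fin (Fintype.card T) := Fintype.equivFin T
  refine ⟨Fintype.card T, fun x y => (e.symm x).1.2 = (e.symm y).1.1, fun x => ρ (e.symm x).1.2,
    ?_, fun s => hρ _, ?_⟩
  · rw [Fintype.card_pos_iff]
    obtain ⟨s⟩ := i3
    have h1 : 0 < ∑ s' : S, (B s s' : ℝ) * ρ s' := by rw [hB]; exact mul_pos hμ (hρ s)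
    obtain ⟨s', _, h2⟩ := Finset.exists_ne_zero_of_sum_ne_zero h1.ne'
    have h3 : B s s' ≠ 0 := by
      intro h; rw [h] at h2; simp at h2
    exact ⟨⟨(s, s'), ⟨0, Nat.pos_of_ne_zero h3⟩⟩⟩
  · intro x
    have h1 : (∑ᶠ (y) (_ : y ∈ {y | (e.symm x).1.2 = (e.symm y).1.1}), ρ (e.symm y).1.2)
        = ∑ y : Fin (Fintype.card T), if (e.symm x).1.2 = (e.symm y).1.1 then ρ (e.symm y).1.2 else 0 := by
      rw [finsum_mem_eq_finite_toFinset_sum _ (Set.toFinite _)]
      rw [← Finset.sum_filter]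
      apply Finset.sum_congr _ (fun _ _ => rfl)
      ext y; simp
    rw [h1]
    rw [Equiv.sum_comp e.symm (fun z : T => if (e.symm x).1.2 = z.1.1 then ρ z.1.2 else 0)]
    rw [Fintype.sum_sigma, Fintype.sum_prod_type, Finset.sum_eq_single (e.symm x).1.2]
    · rw [← hB]
      apply Finset.sum_congr rfl
      intro s' _
      simp
    · intro b _ hb
      apply Finset.sum_eq_zero
      intro c _
      apply Finset.sum_eq_zero
      intro i _
      simp [Ne.symm hb]
    · intro h; exact absurd (Finset.mem_univ _) h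

end Pool.Agent.H83.Ent
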