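import Pool.Agent.H83.Ent.Lind

set_option autoImplicit false

/-! Path counts of a relation with a positive eigenvector. -/

namespace Pool.Agent.H83.Ent

open Finset Filter Topology

/-- the set of paths with `n` vertices -/
def pathSet {k : ℕ} (R : Fin k → Fin k → Prop) (n : ℕ) : Set (Fin n → Fin k) :=
  {x | ∀ i j : Fin n, (j : ℕ) = i + 1 → R (x i) (x j)}

lemma snoc_mem_pathSet {k : ℕ} (R : Fin k → Fin k → Prop) (n : ℕ) (y : Fin (n + 1) → Fin k)
    (s : Fin k) : (Fin.snoc y s : Fin (n + 2) → Fin k) ∈ pathSet R (n + 2) ↔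
      y ∈ pathSet R (n + 1) ∧ R (y (Fin.last n)) s := by
  constructor
  · intro h
    refine ⟨fun i j hij => ?_, ?_⟩
    · have := h i.castSucc j.castSucc (by simpa using hij)
      simpa using this
    · have := h (Fin.last n).castSucc (Fin.last (n + 1)) (by simp)
      simpa using this
  · rintro ⟨h1, h2⟩ i j hij
    induction j using Fin.lastCases with
    | last =>
      have hi : i = (Fin.last n).castSucc := by
        apply Fin.ext
        simp only [Fin.val_last] at hij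
        simp only [Fin.val_castSucc, Fin.val_last]
        omega
      rw [hi]
      simpa using h2
    | cast j =>
      have hi' : (i : ℕ) < n + 1 := by
        have := j.2
        simp only [Fin.val_castSucc] at hij
        omega
      have hi : i = (⟨(i : ℕ), hi'⟩ : Fin (n + 1)).castSucc := by
        apply Fin.ext; simp
      rw [hi]
      rw [Fin.snoc_castSucc, Fin.snoc_castSucc]
      apply h1
      simpa using hij

theorem growth_sum {k : ℕ} (R : Fin k → Fin k → Prop) (ρ : Fin k → ℝ) (μ : ℝ)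
    (hμ : ∀ s, (∑ᶠ s' ∈ {s' | R s s'}, ρ s') = μ * ρ s) (n : ℕ) :
    ∑ᶠ x ∈ pathSet R (n + 1), ρ (x (Fin.last n)) = μ ^ n * ∑ s, ρ s := by
  classical
  have hμ' : ∀ s, (∑ s' : Fin k, if R s s' then ρ s' else 0) = μ * ρ s := by
    intro s
    rw [← hμ, finsum_mem_eq_finite_toFinset_sum _ (Set.toFinite _), ← Finset.sum_filter]
    apply Finset.sum_congr _ (fun _ _ => rfl)
    ext y; simp
  have key : ∀ n : ℕ, (∑ x : Fin (n + 1) → Fin k, if x ∈ pathSet R (n + 1) then ρ (x (Fin.last n)) else 0)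
      = μ ^ n * ∑ s, ρ s := by
    intro n
    induction n with
    | zero =>
      rw [pow_zero, one_mul]
      have h1 : ∀ x : Fin (0 + 1) → Fin k, x ∈ pathSet R (0 + 1) := by
        intro x i j hij
        exfalso
        have := i.2; have := j.2
        omega
      simp only [h1, if_true]
      rw [← Equiv.sum_comp (Equiv.funUnique (Fin 1) (Fin k)) ρ]
      rfl
    | succ n ih =>
      rw [pow_succ', mul_assoc, ← ih, Finset.mul_sum]
      rw [← Equiv.sum_comp (Fin.snocEquiv (fun _ : Fin (n + 2) => Fin k))]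
      rw [Fintype.sum_prod_type, Finset.sum_comm]
      apply Finset.sum_congr rfl
      intro y _
      have h2 : ∀ s : Fin k, (if (Fin.snocEquiv (fun _ : Fin (n + 2) => Fin k)) (s, y) ∈ pathSet R (n + 1 + 1)
          then ρ ((Fin.snocEquiv (fun _ : Fin (n + 2) => Fin k)) (s, y) (Fin.last (n + 1))) else 0)
          = if y ∈ pathSet R (n + 1) then (if R (y (Fin.last n)) s then ρ s else 0) else 0 := by
        intro s
        have h3 : (Fin.snocEquiv (fun _ : Fin (n + 2) => Fin k)) (s, y) =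
          (Fin.snoc y s : Fin (n + 2) → Fin k) := rfl
        rw [h3]
        have h4 := snoc_mem_pathSet R n y s
        by_cases h5 : y ∈ pathSet R (n + 1)
        · by_cases h6 : R (y (Fin.last n)) s
          · rw [if_pos (h4.2 ⟨h5, h6⟩), if_pos h5, if_pos h6]
            simp
          · rw [if_neg (fun h => h6 (h4.1 h).2), if_pos h5, if_neg h6]
        · rw [if_neg (fun h => h5 (h4.1 h).1), if_neg h5]
      rw [Finset.sum_congr rfl (fun s _ => h2 s)]
      by_cases h5 : y ∈ pathSet R (n + 1)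
      · simp only [h5, if_true]
        exact hμ' _
      · simp [h5]
  rw [← key n, finsum_mem_eq_finite_toFinset_sum _ (Set.toFinite _), ← Finset.sum_filter]
  apply Finset.sum_congr _ (fun _ _ => rfl)
  ext y; simp

/-- Two sided bounds for path counts. -/
theorem growth_bounds {k : ℕ} (hk : 0 < k) (R : Fin k → Fin k → Prop) (ρ : Fin k → ℝ) (μ : ℝ)
    (hρ : ∀ s, 0 < ρ s)
    (hμ : ∀ s, (∑ᶠ s' ∈ {s' | R s s'}, ρ s') = μ * ρ s) :
    ∃ c C : ℝ, 0 < c ∧ 0 < C ∧ ∀ n : ℕ, c * μ ^ n ≤ (pathSet R (n + 1)).ncard ∧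
      ((pathSet R (n + 1)).ncard : ℝ) ≤ C * μ ^ n := by
  classical
  haveI : NeZero k := ⟨hk.ne'⟩
  haveI : Nonempty (Fin k) := ⟨0⟩
  obtain ⟨s0, hs0⟩ := Finite.exists_max ρ
  obtain ⟨s1, hs1⟩ := Finite.exists_min ρ
  have hS : 0 < ∑ s, ρ s := Finset.sum_pos (fun s _ => hρ s) Finset.univ_nonempty
  refine ⟨(∑ s, ρ s) / ρ s0, (∑ s, ρ s) / ρ s1, div_pos hS (hρ _), div_pos hS (hρ _), ?_⟩
  intro n
  have h1 := growth_sum R ρ μ hμ n
  rw [finsum_mem_eq_finite_toFinset_sum _ (Set.toFinite _)] at h1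
  have h2 : ((pathSet R (n + 1)).ncard : ℝ) = ∑ x ∈ (Set.toFinite (pathSet R (n + 1))).toFinset, (1 : ℝ) := by
    rw [Finset.sum_const, nsmul_eq_mul, mul_one, ← Set.ncard_eq_toFinset_card]
  constructor
  · rw [div_mul_eq_mul_div, div_le_iff₀ (hρ _), h2, mul_comm _ (μ ^ n), ← h1, Finset.sum_mul]
    exact Finset.sum_le_sum fun x _ => by rw [one_mul]; exact hs0 _
  · rw [div_mul_eq_mul_div, le_div_iff₀ (hρ _), h2, mul_comm _ (μ ^ n), ← h1, Finset.sum_mul]
    exact Finset.sum_le_sum fun x _ => by rw [one_mul]; exact hs1 _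

theorem growth_tendsto {k : ℕ} (hk : 0 < k) (R : Fin k → Fin k → Prop) (ρ : Fin k → ℝ) (μ : ℝ)
    (hμ0 : 0 < μ) (hρ : ∀ s, 0 < ρ s)
    (hμ : ∀ s, (∑ᶠ s' ∈ {s' | R s s'}, ρ s') = μ * ρ s) :
    Tendsto (fun n : ℕ => Real.log ((pathSet R n).ncard) / n) atTop (𝓝 (Real.log μ)) := by
  obtain ⟨c, C, hc, hC, hb⟩ := growth_bounds hk R ρ μ hρ hμ
  rw [← tendsto_add_atTop_iff_nat 1]
  have hlim : ∀ K : ℝ, Tendsto (fun n : ℕ => (K + n * Real.log μ) / ((n + 1 : ℕ) : ℝ)) atTop
      (𝓝 (Real.log μ)) := by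
    intro K
    have h1 : Tendsto (fun n : ℕ => (K - Real.log μ) / ((n + 1 : ℕ) : ℝ)) atTop (𝓝 0) := by
      have := tendsto_const_div_atTop_nhds_zero_nat (K - Real.log μ)
      exact (tendsto_add_atTop_iff_nat 1).2 this
    have h2 : (fun n : ℕ => (K + n * Real.log μ) / ((n + 1 : ℕ) : ℝ)) =
        fun n : ℕ => (K - Real.log μ) / ((n + 1 : ℕ) : ℝ) + Real.log μ := by
      funext n
      have : ((n + 1 : ℕ) : ℝ) ≠ 0 := by positivity
      field_simp
      push_cast
      ring
    rw [h2]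
    simpa using h1.add_const (Real.log μ)
  have hpos : ∀ n : ℕ, (0 : ℝ) < (pathSet R (n + 1)).ncard := fun n =>
    lt_of_lt_of_le (mul_pos hc (pow_pos hμ0 n)) (hb n).1
  refine tendsto_of_tendsto_of_tendsto_of_le_of_le (hlim (Real.log c)) (hlim (Real.log C)) ?_ ?_
  · intro n
    show (Real.log c + n * Real.log μ) / ((n + 1 : ℕ) : ℝ) ≤ _
    apply div_le_div_of_nonneg_right _ (by positivity)
    rw [← Real.log_pow, ← Real.log_mul hc.ne' (pow_pos hμ0 n).ne']
    exact Real.log_le_log (mul_pos hc (pow_pos hμ0 n)) (hb n).1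
  · intro n
    show _ ≤ (Real.log C + n * Real.log μ) / ((n + 1 : ℕ) : ℝ)
    apply div_le_div_of_nonneg_right _ (by positivity)
    rw [← Real.log_pow, ← Real.log_mul hC.ne' (pow_pos hμ0 n).ne']
    exact Real.log_le_log (hpos n) (hb n).2

end Pool.Agent.H83.Ent
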