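import Pool.Agent.H83.Ent.Shearer

set_option autoImplicit false

/-!
The infimum rule for entropies of right-translation invariant sets of configurations on a
group: a lower bound on arbitrarily invariant finite sets is a lower bound on all finite sets.
-/

namespace Pool.Agent.H83.Ent

open Finset

section

variable {G A : Type*} [Group G]

/-- Invariance of a set of configurations under right translation of the argument. -/
def RInv (X : Set (G → A)) : Prop := ∀ x ∈ X, ∀ c : G, (fun g => x (g * c)) ∈ X

lemma nr_translate [DecidableEq G] {X : Set (G → A)} (hX : RInv X) (F : Finset G) (c : G) :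
    nr X (F.image (fun g => g * c)) = nr X F := by
  unfold nr
  have hmem : ∀ i : ((F : Set G) : Type _), (i : G) * c ∈ ((F.image (fun g => g * c) : Finset G) : Set G) := by
    intro i
    simp only [Finset.coe_image]
    exact ⟨i, i.2, rfl⟩
  have h1 : ((fun x : G → A => (F : Set G).restrict x) '' X) =
      (fun z : ((((F.image (fun g => g * c) : Finset G) : Set G) : Type _) → A) =>
        fun i : ((F : Set G) : Type _) => z ⟨(i : G) * c, hmem i⟩) ''
        ((fun x : G → A => ((F.image (fun g => g * c) : Finset G) : Set G).restrict x) '' X) := by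
    rw [Set.image_image]
    ext z
    constructor
    · rintro ⟨x, hx, rfl⟩
      refine ⟨fun g => x (g * c⁻¹), hX x hx c⁻¹, ?_⟩
      funext i
      exact (congrArg x (by group) : x ((i : G) * c * c⁻¹) = x i)
    · rintro ⟨x, hx, rfl⟩
      refine ⟨fun g => x (g * c), hX x hx c, ?_⟩
      funext i
      rfl
  rw [h1]
  symm
  apply Set.ncard_image_of_injOn
  intro z _ w _ h
  funext ⟨i, hi⟩
  simp only [Finset.coe_image, Set.mem_image, Finset.mem_coe] at hi
  obtain ⟨j, hj, rfl⟩ := hi
  exact congrFun h ⟨j, hj⟩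

lemma nr_sub [Finite A] (X : Set (G → A)) {F K : Finset G} (h : F ⊆ K) : nr X F ≤ nr X K := by
  unfold nr
  have hsub : ∀ i : ((F : Set G) : Type _), (i : G) ∈ (K : Set G) := fun i => h i.2
  have h1 : ((fun x : G → A => (F : Set G).restrict x) '' X) =
      (fun z : (((K : Set G) : Type _) → A) => fun i : ((F : Set G) : Type _) => z ⟨(i : G), hsub i⟩) ''
        ((fun x : G → A => (K : Set G).restrict x) '' X) := by
    rw [Set.image_image]
    rfl
  rw [h1]
  exact Set.ncard_image_le (Set.toFinite _)

/-- `N(K)^{|F|} ≤ N(F)^{|F⁻¹K|}`. -/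
theorem cover_ineq [Finite A] [DecidableEq G] {X : Set (G → A)} (hX : RInv X) (F K : Finset G)
    (hF : F.Nonempty) :
    (nr X K) ^ F.card ≤ (nr X F) ^ ((F ×ˢ K).image (fun q => q.1⁻¹ * q.2)).card := by
  classical
  have h := shearer (A := A) ((F ×ˢ K).image (fun q => q.1⁻¹ * q.2))
    (fun g => F.image (fun f => f * g)) F.card hF.card_pos K ?_ X
  · refine h.trans (le_of_eq ?_)
    rw [Finset.prod_congr rfl (fun g _ => nr_translate hX F g), Finset.prod_const]
  · intro j hj
    have : (((F ×ˢ K).image (fun q => q.1⁻¹ * q.2)).filter (fun g => j ∈ F.image (fun f => f * g)))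
        = F.image (fun f => f⁻¹ * j) := by
      ext g
      simp only [Finset.mem_filter, Finset.mem_image, Finset.mem_product, Prod.exists]
      constructor
      · rintro ⟨_, f, hf, rfl⟩
        exact ⟨f, hf, by group⟩
      · rintro ⟨f, hf, rfl⟩
        exact ⟨⟨f, j, ⟨hf, hj⟩, rfl⟩, f, hf, by group⟩
    rw [this, Finset.card_image_of_injective]
    intro f f' h
    simpa using h

lemma nr_pos_of_nonempty [Finite A] {X : Set (G → A)} (hX : X.Nonempty) (F : Finset G) : 0 < nr X F := by
  unfold nr
  obtain ⟨x, hx⟩ := hX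
  exact (Set.ncard_pos (Set.toFinite _)).2 ⟨_, x, hx, rfl⟩

/-- The infimum rule. -/
theorem inf_rule [Finite A] [DecidableEq G] {X : Set (G → A)} (hX : RInv X) (F : Finset G)
    (hF : F.Nonempty) (v : ℝ)
    (H : ∀ ε : ℝ, 0 < ε → ∃ K : Finset G, K.Nonempty ∧
      (((F ×ˢ K).image (fun q => q.1⁻¹ * q.2)).card : ℝ) ≤ (1 + ε) * K.card ∧
      v * K.card ≤ Real.log (nr X K)) :
    v * F.card ≤ Real.log (nr X F) := by
  have hFc : (0 : ℝ) < F.card := by exact_mod_cast hF.card_pos
  have hlog : 0 ≤ Real.log (nr X F) := Real.log_natCast_nonneg _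
  rcases le_or_gt v 0 with hv | hv
  · nlinarith
  have hne : X.Nonempty := by
    by_contra hemp
    rw [Set.not_nonempty_iff_eq_empty] at hemp
    obtain ⟨K, hK, _, h2⟩ := H 1 one_pos
    have hKc : (0 : ℝ) < K.card := by exact_mod_cast hK.card_pos
    have : nr X K = 0 := by rw [hemp]; simp [nr]
    rw [this] at h2
    simp only [Nat.cast_zero, Real.log_zero] at h2
    nlinarith
  have key : ∀ ε : ℝ, 0 < ε → v * F.card ≤ (1 + ε) * Real.log (nr X F) := by
    intro ε hε
    obtain ⟨K, hK, h1, h2⟩ := H ε hε
    have hKc : (0 : ℝ) < K.card := by exact_mod_cast hK.card_pos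
    have h3 := cover_ineq hX F K hF
    have hKpos : (0 : ℝ) < nr X K := by exact_mod_cast nr_pos_of_nonempty hne K
    have h4 : (F.card : ℝ) * Real.log (nr X K) ≤
        ((F ×ˢ K).image (fun q => q.1⁻¹ * q.2)).card * Real.log (nr X F) := by
      rw [← Real.log_pow, ← Real.log_pow]
      apply Real.log_le_log (by positivity)
      exact_mod_cast h3
    have h5 : (F.card : ℝ) * (v * K.card) ≤ (1 + ε) * K.card * Real.log (nr X F) :=
      calc (F.card : ℝ) * (v * K.card) ≤ F.card * Real.log (nr X K) :=
            mul_le_mul_of_nonneg_left h2 hFc.le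
        _ ≤ _ := h4
        _ ≤ _ := mul_le_mul_of_nonneg_right h1 hlog
    have h6 : K.card * (v * F.card) ≤ K.card * ((1 + ε) * Real.log (nr X F)) := by linarith
    exact le_of_mul_le_mul_left h6 hKc
  apply le_of_forall_pos_le_add
  intro δ hδ
  have h7 := key (δ / (Real.log (nr X F) + 1)) (by positivity)
  have h8 : δ / (Real.log (nr X F) + 1) * Real.log (nr X F) ≤ δ := by
    rw [div_mul_eq_mul_div, div_le_iff₀ (by positivity)]
    nlinarith
  nlinarith

end

end Pool.Agent.H83.Ent
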