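import Pool.Agent.H45.Ent.Defs
import Pool.Agent.H83.Ent.IR

set_option autoImplicit false

/-! The infimum rule, in the notation of `H45/Ent`. -/

namespace Pool.Agent.H83.Ent

open Finset Pool.Agent.H45.Ent

variable {G : Type*} [Group G]

lemma nr_eq_cnt {I A : Type*} (S : Set (I → A)) (T : Finset I) : nr S T = cnt S (T : Set I) := rfl

lemma rinv_shift (F : Sys) (a t : G) : RInv (F.shift a t) := by
  intro x hx c g
  have := hx (g * c)
  simpa [mul_assoc] using this

/-- Shearer's inequality in terms of `cnt`. -/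
theorem shearer_cnt {I A ι : Type*} [Finite A] [DecidableEq I] (L : Finset ι) (F : ι → Finset I)
    (k : ℕ) (hk : 0 < k) (T : Finset I)
    (hT : ∀ j ∈ T, k ≤ (L.filter (fun i => j ∈ F i)).card) (S : Set (I → A)) :
    (cnt S (T : Set I)) ^ k ≤ ∏ i ∈ L, cnt S (F i : Set I) :=
  shearer L F k hk T hT S

lemma ent_bddBelow {k : ℕ} (X : Set (G → Fin k)) :
    BddBelow (Set.range fun F : {F : Finset G // F.Nonempty} =>
      Real.log (cnt X (F.1 : Set G) : ℝ) / (F.1.card : ℝ)) := by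
  refine ⟨0, ?_⟩
  rintro _ ⟨F, rfl⟩
  exact div_nonneg (Real.log_natCast_nonneg _) (Nat.cast_nonneg _)

lemma entX_le {k : ℕ} (X : Set (G → Fin k)) (F : Finset G) (hF : F.Nonempty) :
    entX X ≤ Real.log (cnt X (F : Set G) : ℝ) / (F.card : ℝ) :=
  ciInf_le (ent_bddBelow X) ⟨F, hF⟩

lemma entX_nonneg {k : ℕ} (X : Set (G → Fin k)) : 0 ≤ entX X :=
  Real.iInf_nonneg fun _ => div_nonneg (Real.log_natCast_nonneg _) (Nat.cast_nonneg _)

/-- The infimum rule for `entX`: a lower bound for `log cnt / card` on arbitrarily invariant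
finite sets is a lower bound for the entropy. -/
theorem le_entX [DecidableEq G] {k : ℕ} {X : Set (G → Fin k)} (hX : RInv X) (v : ℝ)
    (H : ∀ F : Finset G, F.Nonempty → ∀ ε : ℝ, 0 < ε → ∃ K : Finset G, K.Nonempty ∧
      (((F ×ˢ K).image (fun q => q.1⁻¹ * q.2)).card : ℝ) ≤ (1 + ε) * K.card ∧
      v * K.card ≤ Real.log (cnt X (K : Set G))) :
    v ≤ entX X := by
  haveI : Nonempty {F : Finset G // F.Nonempty} := ⟨⟨{1}, by simp⟩⟩
  refine le_ciInf ?_
  rintro ⟨F, hF⟩
  have h := inf_rule (A := Fin k) hX F hF v (fun ε hε => H F hF ε hε)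
  have hFc : (0 : ℝ) < F.card := by exact_mod_cast hF.card_pos
  rw [le_div_iff₀ hFc]
  exact h

end Pool.Agent.H83.Ent
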