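import Pool.Agent.H83.Ent.Eig

set_option autoImplicit false

/-!
Lind's theorem: a real algebraic integer `l ≥ 1` which is strictly larger in modulus than its
other conjugates is an eigenvalue of a nonnegative integer matrix with a positive eigenvector.
-/

namespace Pool.Agent.H83.Ent

open Finset

section Cone

variable {d : ℕ}

/-- complex evaluation of the polynomial with coefficient vector `c` -/
noncomputable def evc (c : Fin d → ℝ) (z : ℂ) : ℂ := ∑ i, (c i : ℂ) * z ^ (i : ℕ)

/-- real evaluation -/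
noncomputable def evr (l : ℝ) (c : Fin d → ℝ) : ℝ := ∑ i, c i * l ^ (i : ℕ)

lemma evc_sub (c c' : Fin d → ℝ) (z : ℂ) : evc (c - c') z = evc c z - evc c' z := by
  simp [evc, sub_mul, Finset.sum_sub_distrib]

lemma evc_smul (a : ℝ) (c : Fin d → ℝ) (z : ℂ) : evc (a • c) z = a * evc c z := by
  simp [evc, Finset.mul_sum, mul_assoc]

lemma evr_sub (l : ℝ) (c c' : Fin d → ℝ) : evr l (c - c') = evr l c - evr l c' := by
  simp [evr, sub_mul, Finset.sum_sub_distrib]

lemma evr_smul (a l : ℝ) (c : Fin d → ℝ) : evr l (a • c) = a * evr l c := by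
  simp [evr, Finset.mul_sum, mul_assoc]

lemma evc_ofReal (l : ℝ) (c : Fin d → ℝ) : evc c (l : ℂ) = (evr l c : ℂ) := by
  simp [evc, evr]

/-- the cone around the dominant direction -/
def Cone (l : ℝ) (Z : Finset ℂ) (θ : ℝ) (c : Fin d → ℝ) : Prop :=
  0 < evr l c ∧ ∀ z ∈ Z, ‖evc c z‖ ≤ θ * evr l c

/-- integer vectors as real vectors -/
def toR (c : Fin d → ℤ) : Fin d → ℝ := fun i => (c i : ℝ)

lemma toR_sub (c c' : Fin d → ℤ) : toR (c - c') = toR c - toR c' := by
  funext i; simp [toR]

/-- The greedy decomposition. -/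
theorem greedy (l : ℝ) (hl : 1 ≤ l) (Z : Finset ℂ) (hZ : ∀ z ∈ Z, ‖z‖ ≤ l)
    (A : ℝ) (hA : ∀ (c : Fin d → ℝ) (r : ℝ), |evr l c| ≤ r → (∀ z ∈ Z, ‖evc c z‖ ≤ r) →
      ∀ i, |c i| ≤ A * r)
    (ε : Fin d → ℝ) (hε1 : evr l ε = 1) (hε2 : ∀ z ∈ Z, evc ε z = 0) :
    ∃ V : Finset (Fin d → ℤ), (∀ v ∈ V, Cone l Z 1 (toR v)) ∧
      ∀ n : ℕ, ∀ c : Fin d → ℤ, Cone l Z (1 / 4) (toR c) → evr l (toR c) ≤ n →
        ∃ m : (Fin d → ℤ) → ℕ, evr l (toR c) = ∑ v ∈ V, (m v : ℝ) * evr l (toR v) := by
  classical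
  set C : ℝ := ∑ i : Fin d, l ^ (i : ℕ) with hC
  have hl0 : 0 ≤ l := by linarith
  have hC0 : 0 ≤ C := Finset.sum_nonneg fun i _ => pow_nonneg hl0 _
  -- rounding errors
  have hround1 : ∀ u : Fin d → ℝ, (∀ i, |u i| ≤ 1) → |evr l u| ≤ C := by
    intro u hu
    refine (Finset.abs_sum_le_sum_abs _ _).trans (Finset.sum_le_sum fun i _ => ?_)
    rw [abs_mul, abs_of_nonneg (pow_nonneg hl0 _)]
    exact mul_le_of_le_one_left (pow_nonneg hl0 _) (hu i)
  have hround2 : ∀ u : Fin d → ℝ, (∀ i, |u i| ≤ 1) → ∀ z ∈ Z, ‖evc u z‖ ≤ C := by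
    intro u hu z hz
    refine (norm_sum_le _ _).trans (Finset.sum_le_sum fun i _ => ?_)
    rw [norm_mul, norm_pow, Complex.norm_real, Real.norm_eq_abs]
    calc |u i| * ‖z‖ ^ (i : ℕ) ≤ 1 * ‖z‖ ^ (i : ℕ) :=
          mul_le_mul_of_nonneg_right (hu i) (pow_nonneg (norm_nonneg _) _)
      _ ≤ l ^ (i : ℕ) := by
          rw [one_mul]; exact pow_le_pow_left₀ (norm_nonneg _) (hZ z hz) _
  set s : ℝ := 5 * C + 1 with hs
  set R : ℝ := 2 * s with hR
  set B : ℤ := ⌈A * R⌉ with hB
  let V : Finset (Fin d → ℤ) := (Fintype.piFinset (fun _ : Fin d => Finset.Icc (-B) B)).filter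
    (fun v => Cone l Z 1 (toR v) ∧ evr l (toR v) ≤ R)
  have hVmem : ∀ v : Fin d → ℤ, Cone l Z 1 (toR v) → evr l (toR v) ≤ R → v ∈ V := by
    intro v h1 h2
    refine Finset.mem_filter.2 ⟨?_, h1, h2⟩
    rw [Fintype.mem_piFinset]
    intro i
    have h3 := hA (toR v) R (by rw [abs_of_pos h1.1]; exact h2)
      (fun z hz => (h1.2 z hz).trans (by rw [one_mul]; exact h2)) i
    have h4 : |toR v i| ≤ (B : ℝ) := h3.trans (Int.le_ceil _)
    have h5 : |v i| ≤ B := by
      have : (|toR v i| : ℝ) = ((|v i| : ℤ) : ℝ) := by simp [toR]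
      rw [this] at h4
      exact_mod_cast h4
    rw [Finset.mem_Icc]
    exact abs_le.1 h5
  refine ⟨V, fun v hv => (Finset.mem_filter.1 hv).2.1, ?_⟩
  intro n
  induction n with
  | zero =>
    intro c hc h
    exact absurd h (by push_cast; exact not_le.2 hc.1)
  | succ n ih =>
    intro c hc hcn
    by_cases hcR : evr l (toR c) ≤ R
    · have hcV : c ∈ V := hVmem c ⟨hc.1, fun z hz => (hc.2 z hz).trans (by nlinarith [hc.1])⟩ hcR
      refine ⟨fun v => if v = c then 1 else 0, ?_⟩
      rw [Finset.sum_eq_single c]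
      · simp
      · intro b _ hb; simp [hb]
      · intro h; exact absurd hcV h
    · rw [not_le] at hcR
      set y := evr l (toR c) with hy
      have hypos : 0 < y := hc.1
      let w : Fin d → ℝ := (2 * s / y) • toR c - s • ε
      let v : Fin d → ℤ := fun i => round (w i)
      let u : Fin d → ℝ := toR v - w
      have hu : ∀ i, |u i| ≤ 1 := by
        intro i
        have := abs_sub_round (w i)
        rw [abs_sub_comm] at this
        exact this.trans (by norm_num)
      have hwl : evr l w = s := by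
        simp only [w]
        rw [evr_sub, evr_smul, evr_smul, hε1, ← hy]
        field_simp
        ring
      have hwz : ∀ z ∈ Z, evc w z = ((2 * s / y : ℝ) : ℂ) * evc (toR c) z := by
        intro z hz
        simp only [w]
        rw [evc_sub, evc_smul, evc_smul, hε2 z hz, mul_zero, sub_zero]
      have hvl : evr l (toR v) = s + evr l u := by
        simp only [u]; rw [evr_sub, hwl]; ring
      have hvz : ∀ z, evc (toR v) z = evc w z + evc u z := by
        intro z; simp only [u]; rw [evc_sub (toR v) w]; ring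
      have hul := hround1 u hu
      rw [abs_le] at hul
      have hs0 : 0 < s := by linarith
      have hvV : v ∈ V := by
        apply hVmem
        · refine ⟨by linarith [hul.1], ?_⟩
          intro z hz
          rw [hvz, hwz z hz]
          have h1 : ‖((2 * s / y : ℝ) : ℂ) * evc (toR c) z‖ ≤ s / 2 := by
            rw [norm_mul, Complex.norm_real, Real.norm_eq_abs, abs_of_pos (by positivity)]
            calc 2 * s / y * ‖evc (toR c) z‖ ≤ 2 * s / y * (1 / 4 * y) :=
                  mul_le_mul_of_nonneg_left (hc.2 z hz) (by positivity)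
              _ = s / 2 := by field_simp; ring
          have h2 := hround2 u hu z hz
          have h3 := norm_add_le (((2 * s / y : ℝ) : ℂ) * evc (toR c) z) (evc u z)
          linarith [hul.1]
        · linarith [hul.2]
      have hc'l : evr l (toR (c - v)) = y - evr l (toR v) := by
        rw [toR_sub, evr_sub]
      have hc' : Cone l Z (1 / 4) (toR (c - v)) := by
        refine ⟨by rw [hc'l]; linarith [hul.2], ?_⟩
        intro z hz
        rw [hc'l, toR_sub, evc_sub, hvz, hwz z hz]
        have h1 : evc (toR c) z - (((2 * s / y : ℝ) : ℂ) * evc (toR c) z + evc u z) =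
            ((1 - 2 * s / y : ℝ) : ℂ) * evc (toR c) z - evc u z := by push_cast; ring
        rw [h1]
        have h2 : 0 ≤ 1 - 2 * s / y := by
          rw [sub_nonneg, div_le_one hypos]; exact hcR.le
        have h3 : ‖((1 - 2 * s / y : ℝ) : ℂ) * evc (toR c) z‖ ≤ (y - 2 * s) / 4 := by
          rw [norm_mul, Complex.norm_real, Real.norm_eq_abs, abs_of_nonneg h2]
          calc (1 - 2 * s / y) * ‖evc (toR c) z‖ ≤ (1 - 2 * s / y) * (1 / 4 * y) :=
                mul_le_mul_of_nonneg_left (hc.2 z hz) h2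
            _ = (y - 2 * s) / 4 := by field_simp
        have h4 := hround2 u hu z hz
        have h5 := norm_sub_le (((1 - 2 * s / y : ℝ) : ℂ) * evc (toR c) z) (evc u z)
        linarith [hul.2]
      obtain ⟨m, hm⟩ := ih (c - v) hc' (by
        rw [hc'l]
        push_cast at hcn
        linarith [hul.1])
      refine ⟨fun x => m x + if x = v then 1 else 0, ?_⟩
      have h6 : ∑ x ∈ V, (((m x + if x = v then 1 else 0 : ℕ)) : ℝ) * evr l (toR x) =
          ∑ x ∈ V, (m x : ℝ) * evr l (toR x) + evr l (toR v) := by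
        have : ∀ x ∈ V, (((m x + if x = v then 1 else 0 : ℕ)) : ℝ) * evr l (toR x) =
            (m x : ℝ) * evr l (toR x) + if x = v then evr l (toR x) else 0 := by
          intro x _
          by_cases hx : x = v
          · simp [hx]; ring
          · simp [hx]
        rw [Finset.sum_congr rfl this, Finset.sum_add_distrib]
        congr 1
        rw [Finset.sum_ite_eq' V v]
        simp [hvV]
      rw [h6, ← hm, hc'l]
      ring

end Cone

section Poly

open Polynomial

/-- the integer polynomial with coefficient vector `c` -/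
noncomputable def polyOf {d : ℕ} (c : Fin d → ℤ) : ℤ[X] := ∑ i, Polynomial.C (c i) * X ^ (i : ℕ)

/-- the coefficient vector of a polynomial -/
noncomputable def vecOf (d : ℕ) (f : ℤ[X]) : Fin d → ℤ := fun i => f.coeff i

lemma evc_polyOf {d : ℕ} (c : Fin d → ℤ) (z : ℂ) : evc (toR c) z = aeval z (polyOf c) := by
  simp [evc, polyOf, toR]

lemma evc_vecOf {d : ℕ} (f : ℤ[X]) (hf : f.natDegree < d) (z : ℂ) :
    evc (toR (vecOf d f)) z = aeval z f := by
  rw [aeval_def, eval₂_eq_sum_range' _ hf, Finset.sum_range]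
  simp [evc, toR, vecOf]

/-- Lind's theorem. -/
theorem lind (l : ℝ) (hl : 1 ≤ l) (hint : IsIntegral ℤ l)
    (hP : ∀ z : ℂ, Polynomial.aeval z (minpoly ℤ l) = 0 → z ≠ (l : ℂ) → ‖z‖ < l) : EigN l := by
  classical
  set p := minpoly ℤ l with hp
  have hmonic : p.Monic := minpoly.monic hint
  set d := p.natDegree with hd
  have hl0 : 0 < l := by linarith
  -- roots
  have hrootl : aeval (l : ℂ) p = 0 := by
    have h1 : aeval l p = 0 := minpoly.aeval ℤ l
    have h2 : aeval ((algebraMap ℝ ℂ) l) p = algebraMap ℝ ℂ (aeval l p) := by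
      rw [aeval_algebraMap_apply]
    rw [h1] at h2
    simpa using h2
  have hsepR : (p.map (Int.castRingHom ℝ)).Separable := by
    have h1 : minpoly ℚ l = p.map (algebraMap ℤ ℚ) :=
      minpoly.isIntegrallyClosed_eq_field_fractions' ℚ hint
    have h2 : (minpoly ℚ l).Separable := (minpoly.irreducible hint.tower_top).separable
    have h3 : p.map (Int.castRingHom ℝ) = (minpoly ℚ l).map (algebraMap ℚ ℝ) := by
      rw [h1, Polynomial.map_map]
      congr 1
    rw [h3]
    exact h2.map
  have hmapC : p.map (Int.castRingHom ℂ) = (p.map (Int.castRingHom ℝ)).map (algebraMap ℝ ℂ) := by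
    rw [Polynomial.map_map]
    congr 1
  have hsepC : (p.map (Int.castRingHom ℂ)).Separable := by
    rw [hmapC]; exact hsepR.map
  have hmonicC : (p.map (Int.castRingHom ℂ)).Monic := hmonic.map _
  set RC : Finset ℂ := (p.map (Int.castRingHom ℂ)).roots.toFinset with hRC
  have hRCmem : ∀ z, z ∈ RC ↔ aeval z p = 0 := by
    intro z
    rw [hRC, Multiset.mem_toFinset, mem_roots hmonicC.ne_zero, IsRoot.def, eval_map]
    rfl
  have hRCcard : RC.card = d := by
    rw [hRC, Multiset.toFinset_card_of_nodup (nodup_roots hsepC)]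
    rw [← (IsAlgClosed.splits (p.map (Int.castRingHom ℂ))).natDegree_eq_card_roots]
    exact hmonic.natDegree_map _
  set Z : Finset ℂ := RC.erase (l : ℂ) with hZdef
  have hZroot : ∀ z ∈ Z, aeval z p = 0 := fun z hz => (hRCmem z).1 (Finset.mem_of_mem_erase hz)
  have hZlt : ∀ z ∈ Z, ‖z‖ < l := fun z hz => hP z (hZroot z hz) (Finset.ne_of_mem_erase hz)
  have hdpos : 0 < d := by
    rw [← hRCcard]
    exact Finset.card_pos.2 ⟨_, (hRCmem _).2 hrootl⟩
  -- antilipschitz estimate
  have hanti : ∃ A : ℝ, ∀ (c : Fin d → ℝ) (r : ℝ), |evr l c| ≤ r → (∀ z ∈ Z, ‖evc c z‖ ≤ r) →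
      ∀ i, |c i| ≤ A * r := by
    let T : (Fin d → ℝ) →ₗ[ℝ] (RC → ℂ) :=
      { toFun := fun c z => evc c z
        map_add' := by
          intro c c'; funext z; simp [evc, add_mul, Finset.sum_add_distrib]
        map_smul' := by
          intro a c; funext z; simp [evc, Finset.mul_sum, mul_assoc] }
    have hker : LinearMap.ker T = ⊥ := by
      rw [LinearMap.ker_eq_bot']
      intro c hc
      let Q : ℂ[X] := ∑ i : Fin d, Polynomial.C ((c i : ℝ) : ℂ) * X ^ (i : ℕ)
      have hQ0 : Q = 0 := by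
        apply Polynomial.eq_zero_of_degree_lt_of_eval_finset_eq_zero (s := RC)
        · rw [hRCcard]
          exact Polynomial.degree_sum_fin_lt _
        · intro z hz
          have := congrFun hc ⟨z, hz⟩
          simpa [Q, T, evc, eval_finset_sum] using this
      funext i
      have h1 : Q.coeff i = ((c i : ℝ) : ℂ) := by
        simp only [Q, finset_sum_coeff, coeff_C_mul, coeff_X_pow]
        rw [Finset.sum_eq_single i]
        · simp
        · intro b _ hb
          have : ¬ ((i : ℕ) = b) := fun h => hb (Fin.ext h.symm)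
          simp [this]
        · intro h; exact absurd (Finset.mem_univ _) h
      rw [hQ0] at h1
      simp only [coeff_zero] at h1
      exact_mod_cast h1.symm
    obtain ⟨K, -, hK⟩ := LinearMap.exists_antilipschitzWith T hker
    refine ⟨K, ?_⟩
    intro c r hr hz i
    have hr0 : 0 ≤ r := (abs_nonneg _).trans hr
    have h1 : ‖c‖ ≤ K * ‖T c‖ := by
      have := hK.le_mul_dist c 0
      simpa using this
    have h2 : ‖T c‖ ≤ r := by
      rw [pi_norm_le_iff_of_nonneg hr0]
      rintro ⟨z, hzR⟩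
      by_cases hzl : z = (l : ℂ)
      · show ‖evc c z‖ ≤ r
        rw [hzl, evc_ofReal, Complex.norm_real]
        exact hr
      · exact hz z (Finset.mem_erase.2 ⟨hzl, hzR⟩)
    calc |c i| = ‖c i‖ := rfl
      _ ≤ ‖c‖ := norm_le_pi_norm c i
      _ ≤ K * ‖T c‖ := h1
      _ ≤ K * r := mul_le_mul_of_nonneg_left h2 K.2
  obtain ⟨A, hA⟩ := hanti
  -- the direction of the dominant root
  have heps : ∃ ε : Fin d → ℝ, evr l ε = 1 ∧ ∀ z ∈ Z, evc ε z = 0 := by
    set pR := p.map (Int.castRingHom ℝ) with hpR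
    set q := pR /ₘ (X - Polynomial.C l) with hq
    have hroot : IsRoot pR l := by
      rw [IsRoot.def, hpR, eval_map]
      exact minpoly.aeval ℤ l
    have hmul : (X - Polynomial.C l) * q = pR := mul_divByMonic_eq_iff_isRoot.2 hroot
    have hdegq : q.natDegree < d := by
      rw [hq, natDegree_divByMonic _ (monic_X_sub_C l), natDegree_X_sub_C, hpR,
        hmonic.natDegree_map]
      omega
    have hql : q.eval l ≠ 0 := by
      intro h
      have h1 : (X - Polynomial.C l) ∣ q := dvd_iff_isRoot.2 h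
      have h2 : (X - Polynomial.C l) * (X - Polynomial.C l) ∣ pR := by
        rw [← hmul]; exact mul_dvd_mul_left _ h1
      have h3 := isUnit_of_self_mul_dvd_separable hsepR h2
      exact not_isUnit_X_sub_C l h3
    refine ⟨fun i => q.coeff i / q.eval l, ?_, ?_⟩
    · have h1 : q.eval l = ∑ i : Fin d, q.coeff i * l ^ (i : ℕ) := by
        rw [eval_eq_sum_range' hdegq, Finset.sum_range]
      calc evr l (fun i : Fin d => q.coeff i / q.eval l)
          = (∑ i : Fin d, q.coeff i * l ^ (i : ℕ)) / q.eval l := by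
            rw [evr, Finset.sum_div]
            exact Finset.sum_congr rfl fun i _ => by ring
        _ = 1 := by rw [← h1]; exact div_self hql
    · intro z hz
      have h0 : aeval z q = 0 := by
        have h1 : aeval z pR = 0 := by
          rw [hpR, ← hZroot z hz, aeval_def, eval₂_map, aeval_def]
          congr 1
        rw [← hmul, map_mul] at h1
        rcases mul_eq_zero.1 h1 with h2 | h2
        · exfalso
          have : z = (l : ℂ) := by
            simp only [map_sub, aeval_X, aeval_C] at h2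
            exact sub_eq_zero.1 h2
          exact Finset.ne_of_mem_erase hz this
        · exact h2
      have h1 : aeval z q = ∑ i : Fin d, (q.coeff i : ℂ) * z ^ (i : ℕ) := by
        rw [aeval_def, eval₂_eq_sum_range' _ hdegq, Finset.sum_range]
        rfl
      calc evc (fun i : Fin d => q.coeff i / q.eval l) z
          = (∑ i : Fin d, (q.coeff i : ℂ) * z ^ (i : ℕ)) / ((q.eval l : ℝ) : ℂ) := by
            rw [evc, Finset.sum_div]
            exact Finset.sum_congr rfl fun i _ => by push_cast; ring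
        _ = 0 := by rw [← h1, h0]; simp
  obtain ⟨ε, hε1, hε2⟩ := heps
  obtain ⟨V, hV1, hV2⟩ := greedy l hl Z (fun z hz => (hZlt z hz).le) A hA ε hε1 hε2
  -- the exponent
  have hN : ∃ N : ℕ, 0 < N ∧ ∀ z ∈ Z, ‖z‖ ^ N ≤ 1 / 4 * l ^ N := by
    have h1 : ∀ᶠ N : ℕ in Filter.atTop, ∀ z ∈ Z, ‖z‖ ^ N ≤ 1 / 4 * l ^ N := by
      rw [Filter.eventually_all_finset]
      intro z hz
      have h2 : Filter.Tendsto (fun N : ℕ => (‖z‖ / l) ^ N) Filter.atTop (nhds 0) := by
        apply tendsto_pow_atTop_nhds_zero_of_lt_one (by positivity)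
        rw [div_lt_one hl0]; exact hZlt z hz
      have h3 := h2.eventually (gt_mem_nhds (show (0 : ℝ) < 1 / 4 by norm_num))
      filter_upwards [h3] with N hN
      rw [div_pow, div_lt_iff₀ (by positivity)] at hN
      exact hN.le
    obtain ⟨N, h2, h3⟩ := (h1.and (Filter.eventually_gt_atTop 0)).exists
    exact ⟨N, h3, h2⟩
  obtain ⟨N, hN0, hN⟩ := hN
  -- multiplication by `X ^ N`
  have hstep : ∀ v : Fin d → ℤ, Cone l Z 1 (toR v) → ∃ c : Fin d → ℤ,
      evr l (toR c) = l ^ N * evr l (toR v) ∧ Cone l Z (1 / 4) (toR c) := by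
    intro v hv
    set g := (X ^ N * polyOf v) %ₘ p with hg
    have hgdeg : g.natDegree < d := natDegree_modByMonic_lt _ hmonic (by
      intro h; rw [hd, h] at hdpos; simp at hdpos)
    have hval : ∀ z : ℂ, aeval z p = 0 → evc (toR (vecOf d g)) z = z ^ N * evc (toR v) z := by
      intro z hz
      rw [evc_vecOf g hgdeg, hg, aeval_modByMonic_eq_self_of_root hz, evc_polyOf]
      simp
    have hl' : evr l (toR (vecOf d g)) = l ^ N * evr l (toR v) := by
      have := hval l hrootl
      rw [evc_ofReal, evc_ofReal] at this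
      exact_mod_cast this
    refine ⟨vecOf d g, hl', ?_, ?_⟩
    · rw [hl']; exact mul_pos (pow_pos hl0 _) hv.1
    · intro z hz
      rw [hval z (hZroot z hz), hl', norm_mul, norm_pow]
      calc ‖z‖ ^ N * ‖evc (toR v) z‖ ≤ ‖z‖ ^ N * (1 * evr l (toR v)) :=
            mul_le_mul_of_nonneg_left (hv.2 z hz) (pow_nonneg (norm_nonneg _) _)
        _ ≤ (1 / 4 * l ^ N) * (1 * evr l (toR v)) :=
            mul_le_mul_of_nonneg_right (hN z hz) (by rw [one_mul]; exact hv.1.le)
        _ = _ := by ring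
  have hdec : ∀ v : Fin d → ℤ, Cone l Z 1 (toR v) → ∃ m : (Fin d → ℤ) → ℕ,
      l ^ N * evr l (toR v) = ∑ w ∈ V, (m w : ℝ) * evr l (toR w) := by
    intro v hv
    obtain ⟨c, h1, h2⟩ := hstep v hv
    obtain ⟨n, hn⟩ := exists_nat_ge (evr l (toR c))
    obtain ⟨m, hm⟩ := hV2 n c h2 hn
    exact ⟨m, by rw [← h1]; exact hm⟩
  choose! m hm using hdec
  have hVne : Nonempty V := by
    have h1 : Cone l Z 1 (toR (vecOf d (1 : ℤ[X]))) := by
      have hdeg : (1 : ℤ[X]).natDegree < d := by simpa using hdpos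
      have h2 : evr l (toR (vecOf d (1 : ℤ[X]))) = 1 := by
        have := evc_vecOf (1 : ℤ[X]) hdeg (l : ℂ)
        rw [evc_ofReal] at this
        simp only [map_one] at this
        exact_mod_cast this
      refine ⟨by rw [h2]; exact one_pos, fun z _ => ?_⟩
      rw [evc_vecOf (1 : ℤ[X]) hdeg, h2]
      simp
    have h2 := hm _ h1
    have h3 : l ^ N * evr l (toR (vecOf d (1 : ℤ[X]))) ≠ 0 := (mul_pos (pow_pos hl0 _) h1.1).ne'
    rw [h2] at h3
    obtain ⟨w, hw, _⟩ := Finset.exists_ne_zero_of_sum_ne_zero h3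
    exact ⟨⟨w, hw⟩⟩
  have hEN : EigN (l ^ N) := by
    refine ⟨V, inferInstance, inferInstance, hVne, fun v w => m v w, fun v => evr l (toR v.1),
      fun v => (hV1 v.1 v.2).1, fun v => ?_⟩
    rw [hm v.1 (hV1 v.1 v.2)]
    exact Finset.sum_coe_sort V (fun w => (m v.1 w : ℝ) * evr l (toR w))
  exact hEN.root N hN0 hl0 rfl

/-- All values `exp (q log l)`. -/
theorem eig_of_EZ (h : ℝ) (hh : ∃ q : ℚ, 0 < q ∧ ∃ l : ℝ, 1 ≤ l ∧ IsIntegral ℤ l ∧
        (∀ z : ℂ, Polynomial.aeval z (minpoly ℤ l) = 0 → z ≠ (l : ℂ) → ‖z‖ < l) ∧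
        h = (q : ℝ) * Real.log l) : Eig (Real.exp h) := by
  obtain ⟨q, hq, l, hl, hint, hP, rfl⟩ := hh
  have h1 := (lind l hl hint hP).pow q.num.toNat
  refine EigN.toEig (h1.root q.den q.den_pos (Real.exp_pos _) ?_) (Real.exp_pos _)
  have hl0 : 0 < l := by linarith
  rw [← Real.exp_nat_mul]
  have hnum : ((q.num.toNat : ℕ) : ℝ) = (q.num : ℝ) := by
    have : ((q.num.toNat : ℕ) : ℤ) = q.num := Int.toNat_of_nonneg (Rat.num_pos.2 hq).le
    exact_mod_cast congrArg (Int.cast (R := ℝ)) this
  have hden : ((q.den : ℕ) : ℝ) ≠ 0 := by exact_mod_cast q.den_pos.ne'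
  have h2 : ((q.den : ℕ) : ℝ) * ((q : ℝ) * Real.log l) = ((q.num.toNat : ℕ) : ℝ) * Real.log l := by
    rw [hnum]
    have : (q : ℝ) = (q.num : ℝ) / (q.den : ℝ) := by exact_mod_cast (Rat.num_div_den q).symm
    rw [this]
    field_simp
  rw [h2, ← Real.log_pow, Real.exp_log (pow_pos hl0 _)]

end Poly

end Pool.Agent.H83.Ent
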