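import Mathlib

set_option autoImplicit false

/-!
Shearer's projection inequality for finite uniform covers, for sets of configurations
over a finite alphabet.
-/

namespace Pool.Agent.H83.Ent

open Finset

/-- The number of restrictions to the finite set `T` of the configurations in `S`. -/
noncomputable def nr {I A : Type*} (S : Set (I → A)) (T : Finset I) : ℕ :=
  ((fun x : I → A => (T : Set I).restrict x) '' S).ncard

/-- Hoelder's inequality with `k` equal exponents `1/k`. -/
lemma holder_unif {α ι : Type*} (s : Finset α) (t : Finset ι) (k : ℕ) (hk : 0 < k)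
    (ht : t.card = k) (x : ι → α → ℝ) (hx : ∀ i a, 0 ≤ x i a) :
    ∑ a ∈ s, ∏ i ∈ t, (x i a) ^ ((1 : ℝ) / k) ≤ ∏ i ∈ t, (∑ a ∈ s, x i a) ^ ((1 : ℝ) / k) := by
  have hkr : (0 : ℝ) < k := by exact_mod_cast hk
  by_cases h0 : ∃ i ∈ t, ∑ a ∈ s, x i a = 0
  · obtain ⟨i, hi, h⟩ := h0
    have h1 : ∀ a ∈ s, x i a = 0 := (Finset.sum_eq_zero_iff_of_nonneg (fun a _ => hx i a)).1 h
    have : ∑ a ∈ s, ∏ i ∈ t, (x i a) ^ ((1 : ℝ) / k) = 0 := by
      apply Finset.sum_eq_zero
      intro a ha
      apply Finset.prod_eq_zero hi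
      rw [h1 a ha]
      exact Real.zero_rpow (by positivity)
    rw [this]
    exact Finset.prod_nonneg fun i _ => Real.rpow_nonneg (Finset.sum_nonneg fun a _ => hx i a) _
  · push Not at h0
    have hX : ∀ i ∈ t, 0 < ∑ a ∈ s, x i a := fun i hi =>
      lt_of_le_of_ne (Finset.sum_nonneg fun a _ => hx i a) (Ne.symm (h0 i hi))
    have key : ∀ a ∈ s, ∏ i ∈ t, (x i a) ^ ((1 : ℝ) / k) ≤
        (∏ i ∈ t, (∑ a ∈ s, x i a) ^ ((1 : ℝ) / k)) *
          ∑ i ∈ t, ((1 : ℝ) / k) * (x i a / ∑ a ∈ s, x i a) := by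
      intro a _
      have h1 := Real.geom_mean_le_arith_mean_weighted t (fun _ => (1 : ℝ) / k)
        (fun i => x i a / ∑ a ∈ s, x i a) (fun _ _ => by positivity)
        (by rw [Finset.sum_const, ht, nsmul_eq_mul]; field_simp)
        (fun i _ => div_nonneg (hx i a) (Finset.sum_nonneg fun a _ => hx i a))
      have h2 : ∏ i ∈ t, (x i a) ^ ((1 : ℝ) / k) =
          (∏ i ∈ t, (∑ a ∈ s, x i a) ^ ((1 : ℝ) / k)) *
            ∏ i ∈ t, (x i a / ∑ a ∈ s, x i a) ^ ((1 : ℝ) / k) := by
        rw [← Finset.prod_mul_distrib]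
        apply Finset.prod_congr rfl
        intro i hi
        rw [← Real.mul_rpow (hX i hi).le (div_nonneg (hx i a) (hX i hi).le)]
        congr 1
        have := (hX i hi).ne'
        field_simp
      rw [h2]
      exact mul_le_mul_of_nonneg_left h1
        (Finset.prod_nonneg fun i _ => Real.rpow_nonneg (Finset.sum_nonneg fun a _ => hx i a) _)
    refine (Finset.sum_le_sum key).trans ?_
    rw [← Finset.mul_sum, Finset.sum_comm]
    have : ∑ i ∈ t, ∑ a ∈ s, ((1 : ℝ) / k) * (x i a / ∑ a ∈ s, x i a) = 1 := by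
      have : ∀ i ∈ t, ∑ a ∈ s, ((1 : ℝ) / k) * (x i a / ∑ a ∈ s, x i a) = (1 : ℝ) / k := by
        intro i hi
        rw [← Finset.mul_sum, ← Finset.sum_div, div_self (hX i hi).ne', mul_one]
      rw [Finset.sum_congr rfl this, Finset.sum_const, ht, nsmul_eq_mul]
      field_simp
    rw [this, mul_one]

section

variable {I A : Type*}

lemma nr_mono [Finite A] {S S' : Set (I → A)} (h : S ⊆ S') (T : Finset I) : nr S T ≤ nr S' T :=
  Set.ncard_le_ncard (Set.image_mono h) (Set.toFinite _)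

lemma nr_fiber [Fintype A] (S : Set (I → A)) (T : Finset I) (j : I) (hj : j ∈ T) :
    nr S T = ∑ a : A, nr {x ∈ S | x j = a} T := by
  classical
  unfold nr
  rw [Set.ncard_eq_toFinset_card' ((fun x : I → A => (T : Set I).restrict x) '' S)]
  rw [Finset.card_eq_sum_card_fiberwise (f := fun z : (((T : Set I) : Type _) → A) => z ⟨j, hj⟩)
    (t := Finset.univ) (fun _ _ => Finset.mem_coe.2 (Finset.mem_univ _))]
  apply Finset.sum_congr rfl
  intro a _
  rw [Set.ncard_eq_toFinset_card']
  congr 1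
  ext z
  simp only [Finset.mem_filter, Set.mem_toFinset, Set.mem_image, Set.mem_sep_iff]
  constructor
  · rintro ⟨⟨x, hx, rfl⟩, h⟩
    exact ⟨x, ⟨hx, h⟩, rfl⟩
  · rintro ⟨x, ⟨hx, h⟩, rfl⟩
    exact ⟨⟨x, hx, rfl⟩, h⟩

lemma nr_insert [DecidableEq I] (S : Set (I → A)) (T : Finset I) (j : I) (a : A) :
    nr {x ∈ S | x j = a} (insert j T) = nr {x ∈ S | x j = a} T := by
  unfold nr
  have hsub : (T : Set I) ⊆ ((insert j T : Finset I) : Set I) := by
    intro i hi; simp only [Finset.coe_insert]; exact Set.mem_insert_of_mem _ hi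
  have : ((fun x : I → A => (T : Set I).restrict x) '' {x ∈ S | x j = a}) =
      (fun z : ((((insert j T : Finset I) : Set I) : Type _) → A) => fun i : (T : Set I) => z ⟨i, hsub i.2⟩) ''
        ((fun x : I → A => (((insert j T : Finset I) : Set I)).restrict x) '' {x ∈ S | x j = a}) := by
    rw [Set.image_image]
    rfl
  rw [this]
  symm
  apply Set.ncard_image_of_injOn
  rintro _ ⟨x, hx, rfl⟩ _ ⟨y, hy, rfl⟩ h
  funext ⟨i, hi⟩
  simp only [Finset.coe_insert, Set.mem_insert_iff] at hi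
  rcases hi with rfl | hi
  · exact hx.2.trans hy.2.symm
  · exact congrFun h ⟨i, hi⟩

/-- Shearer's inequality, real form. -/
theorem shearer_real {ι : Type*} [Finite A] [DecidableEq I] (L : Finset ι) (F : ι → Finset I)
    (k : ℕ) (hk : 0 < k) (T : Finset I) :
    (∀ j ∈ T, k ≤ (L.filter (fun i => j ∈ F i)).card) → ∀ S : Set (I → A),
      (nr S T : ℝ) ≤ ∏ i ∈ L, (nr S (F i) : ℝ) ^ ((1 : ℝ) / k) := by
  classical
  have := Fintype.ofFinite A
  induction T using Finset.induction_on with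
  | empty =>
    intro _ S
    rcases S.eq_empty_or_nonempty with rfl | ⟨x, hx⟩
    · have : nr (∅ : Set (I → A)) ∅ = 0 := by simp [nr]
      rw [this]
      simp only [Nat.cast_zero]
      exact Finset.prod_nonneg fun i _ => Real.rpow_nonneg (Nat.cast_nonneg _) _
    · have h1 : nr S ∅ ≤ 1 := by
        unfold nr
        have : ((fun x : I → A => (((∅ : Finset I) : Set I)).restrict x) '' S) ⊆
            {(((∅ : Finset I) : Set I)).restrict x} := by
          rintro _ ⟨y, _, rfl⟩
          rw [Set.mem_singleton_iff]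
          funext ⟨i, hi⟩
          simp at hi
        calc _ ≤ ({(((∅ : Finset I) : Set I)).restrict x} :
                  Set (((∅ : Finset I) : Set I) → A)).ncard := Set.ncard_le_ncard this (Set.toFinite _)
          _ = 1 := Set.ncard_singleton _
      have h2 : ∀ i ∈ L, (1 : ℝ) ≤ (nr S (F i) : ℝ) ^ ((1 : ℝ) / k) := by
        intro i _
        apply Real.one_le_rpow _ (by positivity)
        have : 0 < nr S (F i) := by
          unfold nr
          exact (Set.ncard_pos (Set.toFinite _)).2 ⟨_, x, hx, rfl⟩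
        exact_mod_cast this
      calc (nr S ∅ : ℝ) ≤ 1 := by exact_mod_cast h1
        _ ≤ _ := by
          have := Finset.prod_le_prod (s := L) (f := fun _ => (1 : ℝ))
            (g := fun i => (nr S (F i) : ℝ) ^ ((1 : ℝ) / k)) (fun _ _ => by norm_num) h2
          simpa using this
  | insert j T hj ih =>
    intro hT S
    have ih' := ih (fun j' hj' => hT j' (Finset.mem_insert_of_mem hj'))
    have h1 : (nr S (insert j T) : ℝ) = ∑ a : A, (nr {x ∈ S | x j = a} T : ℝ) := by
      rw [nr_fiber S (insert j T) j (Finset.mem_insert_self _ _)]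
      push_cast
      apply Finset.sum_congr rfl
      intro a _
      rw [nr_insert]
    rw [h1]
    obtain ⟨L', hL', hL'c⟩ := Finset.exists_subset_card_eq (hT j (Finset.mem_insert_self _ _))
    have hL'L : L' ⊆ L := hL'.trans (Finset.filter_subset _ _)
    have h2 : ∀ a : A, (nr {x ∈ S | x j = a} T : ℝ) ≤
        (∏ i ∈ L \ L', (nr S (F i) : ℝ) ^ ((1 : ℝ) / k)) *
          ∏ i ∈ L', (nr {x ∈ S | x j = a} (F i) : ℝ) ^ ((1 : ℝ) / k) := by
      intro a
      refine (ih' _).trans ?_
      rw [← Finset.prod_sdiff hL'L]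
      apply mul_le_mul_of_nonneg_right
      · apply Finset.prod_le_prod
        · intro i _; exact Real.rpow_nonneg (Nat.cast_nonneg _) _
        · intro i _
          apply Real.rpow_le_rpow (Nat.cast_nonneg _) _ (by positivity)
          exact_mod_cast nr_mono (S := {x ∈ S | x j = a}) (S' := S) (fun x hx => hx.1) _
      · exact Finset.prod_nonneg fun i _ => Real.rpow_nonneg (Nat.cast_nonneg _) _
    refine (Finset.sum_le_sum fun a _ => h2 a).trans ?_
    rw [← Finset.mul_sum]
    have h3 := holder_unif (Finset.univ : Finset A) L' k hk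
      hL'c (fun i a => (nr {x ∈ S | x j = a} (F i) : ℝ))
      (fun _ _ => Nat.cast_nonneg _)
    refine (mul_le_mul_of_nonneg_left h3
      (Finset.prod_nonneg fun i _ => Real.rpow_nonneg (Nat.cast_nonneg _) _)).trans ?_
    have h4 : ∏ i ∈ L', (∑ a : A, (nr {x ∈ S | x j = a} (F i) : ℝ)) ^ ((1 : ℝ) / k)
        = ∏ i ∈ L', (nr S (F i) : ℝ) ^ ((1 : ℝ) / k) := by
      apply Finset.prod_congr rfl
      intro i hi
      rw [nr_fiber S (F i) j (Finset.mem_filter.1 (hL' hi)).2]
      push_cast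
      rfl
    rw [h4, Finset.prod_sdiff hL'L]

/-- Shearer's inequality, natural number form. -/
theorem shearer {ι : Type*} [Finite A] [DecidableEq I] (L : Finset ι) (F : ι → Finset I)
    (k : ℕ) (hk : 0 < k) (T : Finset I)
    (hT : ∀ j ∈ T, k ≤ (L.filter (fun i => j ∈ F i)).card) (S : Set (I → A)) :
    (nr S T) ^ k ≤ ∏ i ∈ L, nr S (F i) := by
  have h := shearer_real L F k hk T hT S
  have h2 : (nr S T : ℝ) ^ k ≤ (∏ i ∈ L, (nr S (F i) : ℝ) ^ ((1 : ℝ) / k)) ^ k :=
    pow_le_pow_left₀ (Nat.cast_nonneg _) h k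
  rw [← Finset.prod_pow] at h2
  have h3 : ∏ i ∈ L, ((nr S (F i) : ℝ) ^ ((1 : ℝ) / k)) ^ k = ∏ i ∈ L, (nr S (F i) : ℝ) := by
    apply Finset.prod_congr rfl
    intro i _
    rw [← Real.rpow_natCast, ← Real.rpow_mul (Nat.cast_nonneg _)]
    have : (1 : ℝ) / k * k = 1 := by
      have : (k : ℝ) ≠ 0 := by exact_mod_cast hk.ne'
      field_simp
    rw [this, Real.rpow_one]
  rw [h3] at h2
  exact_mod_cast h2

end

end Pool.Agent.H83.Ent
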